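import Pool.Agent.Y280.UG.All

set_option autoImplicit false

open Set Metric Topology Filter

namespace Pool.Agent.Results.MP_462cdc_an.DimensionTwo

open Pool.Agent.Y280.UG

/-- **Q2 for the renormings of all Banach spaces.** Let `E` be a real or complex Banach space which is separable or,
more generally, has an equivalent strictly convex norm. Then `E` has an equivalent norm that is not strictly convex
and for which `𝒰_G` is of second category for all compact `G` if and only if `E` has dimension at least two. In
particular the plane has such norms. -/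
theorem result {𝕜 : Type*} [RCLike 𝕜] {E : Type*} [NormedAddCommGroup E] [NormedSpace 𝕜 E] [CompleteSpace E]
    (hE : TopologicalSpace.SeparableSpace E ∨ ∃ q : Seminorm 𝕜 E, IsEquivNorm q ∧ IsStrictlyConvex q) :
    (∃ p : Seminorm 𝕜 E, IsEquivNorm p ∧ ¬ IsStrictlyConvex p ∧
        ∀ G : Set E, IsCompact G → ¬ IsMeagre (uniqSet p G)) ↔ 2 ≤ Module.rank 𝕜 E := by
  obtain ⟨q, hq, hq'⟩ := exists_rot hE
  constructor
  · rintro ⟨p, hp, hns, -⟩
    rw [Cardinal.two_le_iff_one_lt]
    by_contra hc
    push Not at hc
    exact hns (strict_of_rank_le_one hc p)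
  · intro h
    obtain ⟨f, z, e, hz, he, hfe⟩ := exists_dirs h
    exact exists_two hq hq' hz he hfe

end Pool.Agent.Results.MP_462cdc_an.DimensionTwo
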