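import Pool.Agent.Y280.UG.All

set_option autoImplicit false

open Set Metric Topology Filter

namespace Pool.Agent.Results.MP_462cdc_an.InfiniteDimension

open Pool.Agent.Y280.UG

/-- **Q1 for the renormings of all Banach spaces.** Let `E` be a real or complex Banach space which is separable or,
more generally, has an equivalent strictly convex norm. Then `E` has an equivalent norm that is not strictly convex
and for which `𝒰_G` is dense for all compact `G` if and only if `E` has infinite dimension; in that case the norm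
can be chosen such that `𝒰_G` is a dense `G_δ` set of second category for all closed boundedly compact sets `G`. -/
theorem result {𝕜 : Type*} [RCLike 𝕜] {E : Type*} [NormedAddCommGroup E] [NormedSpace 𝕜 E] [CompleteSpace E]
    (hE : TopologicalSpace.SeparableSpace E ∨ ∃ q : Seminorm 𝕜 E, IsEquivNorm q ∧ IsStrictlyConvex q) :
    ((∃ p : Seminorm 𝕜 E, IsEquivNorm p ∧ ¬ IsStrictlyConvex p ∧
        ∀ G : Set E, IsCompact G → Dense (uniqSet p G)) ↔ ¬ FiniteDimensional 𝕜 E) ∧
    (¬ FiniteDimensional 𝕜 E → ∃ p : Seminorm 𝕜 E, IsEquivNorm p ∧ ¬ IsStrictlyConvex p ∧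
        ∀ G : Set E, ClosedBoundedlyCompact G →
          Dense (uniqSet p G) ∧ IsGδ (uniqSet p G) ∧ ¬ IsMeagre (uniqSet p G)) := by
  obtain ⟨q, hq, hq'⟩ := exists_rot hE
  have hinf : ¬ FiniteDimensional 𝕜 E → ∃ p : Seminorm 𝕜 E, IsEquivNorm p ∧ ¬ IsStrictlyConvex p ∧
      ∀ G : Set E, ClosedBoundedlyCompact G →
        Dense (uniqSet p G) ∧ IsGδ (uniqSet p G) ∧ ¬ IsMeagre (uniqSet p G) := by
    intro h
    obtain ⟨f, z, e, hz, he, hfe⟩ := exists_dirs (two_le_rank h)
    refine ⟨newN q f z e, newN_equiv hq he, newN_not_strict hq he hz hfe, fun G hG => ?_⟩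
    have hd := newN_dense (f := f) (z := z) hq hq' he h hG
    have hg := isGδ_uniqSet (newN_equiv (f := f) (z := z) hq he) hG
    exact ⟨hd, hg, not_isMeagre_of_isGδ_of_dense hg hd⟩
  refine ⟨⟨?_, ?_⟩, hinf⟩
  · rintro ⟨p, hp, hns, hd⟩ hfin
    exact hns (strict_of_dense hp hd)
  · intro h
    obtain ⟨p, hp, hns, hd⟩ := hinf h
    exact ⟨p, hp, hns, fun G hG => (hd G (ofCompact hG)).1⟩

end Pool.Agent.Results.MP_462cdc_an.InfiniteDimension
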